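import Pool.Agent.X254.Polyplex

/-!
# An extremal ten-dimensional (0,1)-matrix of order two with deficiency `2/79`
-/

set_option autoImplicit false

namespace Pool.Agent.Results.MP_1f9c83_co.NonReciprocalDeficiency

open Pool.Agent.X254.Polyplex

/-- the weights -/
def w : Fin 10 → ℕ := ![36, 32, 21, 17, 17, 13, 11, 3, 3, 3]

/-- the support of an optimal polyplex -/
def b : Fin 10 → Fin 10 → Fin 2 := ![![1, 0, 1, 0, 0, 1, 0, 1, 1, 1], ![1, 0, 0, 1, 1, 0, 0, 1, 1, 1],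
  ![0, 1, 1, 1, 0, 0, 0, 1, 1, 1], ![0, 0, 1, 1, 1, 1, 1, 0, 0, 0], ![0, 1, 1, 0, 1, 0, 0, 1, 1, 1],
  ![0, 1, 0, 1, 1, 1, 0, 0, 0, 0], ![1, 1, 0, 0, 0, 0, 1, 0, 0, 0], ![0, 1, 0, 1, 0, 1, 1, 1, 1, 0],
  ![0, 1, 0, 1, 0, 1, 1, 0, 1, 1], ![0, 1, 0, 1, 0, 1, 1, 1, 0, 1]]

/-- its entries, multiplied by `79` -/
def c : Fin 10 → ℕ := ![25, 21, 4, 31, 19, 8, 33, 5, 5, 5]

lemma hno : ∀ α : Fin 10 → Fin 2, wt w α + 1 ≠ 79 := by decide +kernel

/-- **Theorem.** There is an extremal `10`-dimensional (0,1)-matrix of order `2` with the deficiency `2/79`,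
which is not of the form `1/m`. -/
theorem result : ∃ A : (Fin 10 → Fin 2) → Prop, Extremal A ∧ IsDeficiency A (2 / 79) ∧
    ∀ m : ℕ, (2 / 79 : ℝ) ≠ 1 / (m : ℝ) := by
  have hW : ∑ i, w i + 2 = 2 * 79 := by decide +kernel
  refine ⟨Amat w 79, extremal (by norm_num) hW hno, ?_, ?_⟩
  · have h := deficiency (q := 79) (w := w) b c (D := 79) (by norm_num) (by decide +kernel)
      (by decide +kernel) (by norm_num) hW (by decide +kernel)
    simpa using h
  · intro m h
    rcases Nat.eq_zero_or_pos m with rfl | hm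
    · norm_num at h
    · have hm' : (0 : ℝ) < m := by exact_mod_cast hm
      rw [div_eq_div_iff (by norm_num) hm'.ne'] at h
      have h2 : (2 : ℕ) * m = 79 := by
        have : (2 : ℝ) * m = 79 := by linarith
        exact_mod_cast this
      omega

end Pool.Agent.Results.MP_1f9c83_co.NonReciprocalDeficiency
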